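import Pool.Agent.T2h54.Alt.Knot

/-!
# The real parts of the zeros of the Alexander polynomials of alternating knots are not bounded

For `n ≥ 1` the diagram `T2h54.Alt.starKnot n` is the natural diagram, with `4 n + 4` crossings, of the
boundary of the surface obtained by plumbing `2 n + 2` annuli with one full twist, with signs
alternating along the edges, along the tree which consists of a vertex with one arm of length `1` and
`n` arms of length `2`. It is an alternating diagram of a knot with the Conway polynomial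
`(1 - z²)^(n-1) (1 - (n+2) z² + z⁴)`.
-/

set_option autoImplicit false

namespace Pool.Agent.Results.MP_644796_gt.UnboundedZeros

open Pool.Agent.Helper454.Wh (OWord OPiece OClosed forget)
open Pool.Agent.Helper454.Kauf (IsKnot)
open Q174.TBD (IsConway)
open T2h54.Alt
open LaurentPolynomial (T)

noncomputable section

/-- The value of the Laurent polynomial `A ∈ ℤ[t, t⁻¹]` at the nonzero complex number `t = z`. -/
def value (A : LaurentPolynomial ℤ) (z : ℂˣ) : ℂ := LaurentPolynomial.eval₂ (Int.castRingHom ℂ) z A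

/-- `A ∈ ℤ[t, t⁻¹]` is the Alexander polynomial `Δ(t)` of the knot with the diagram `K`, in Conway's
normalisation: `A(s²) = ∇(s - s⁻¹)` for all `s ≠ 0`, where `∇` is the Conway polynomial of `K`. -/
def IsAlexander (Λ : OWord → LaurentPolynomial ℤ) (K : OWord) (A : LaurentPolynomial ℤ) : Prop :=
  ∃ P : Polynomial ℤ, Λ K = Polynomial.toLaurent P ∧
    ∀ s : ℂˣ, value A (s ^ 2) = P.eval₂ (Int.castRingHom ℂ) ((s : ℂ) - (s : ℂ)⁻¹)

/-- The number of crossings of a diagram. -/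
def crossings (K : OWord) : ℕ := K.countP fun p => match p with
  | OPiece.pos _ => true
  | OPiece.neg _ => true
  | _ => false

/-! ### auxiliary facts -/

/-- the Alexander polynomial of `starKnot n` -/
def apoly (n : ℕ) : LaurentPolynomial ℤ :=
  (1 - (T 1 - 2 + T (-1))) ^ (n + 1) -
    (n : LaurentPolynomial ℤ) * (T 1 - 2 + T (-1)) * (1 - (T 1 - 2 + T (-1))) ^ (n - 1)

theorem value_x (z : ℂˣ) :
    value (T 1 - 2 + T (-1)) z = (z : ℂ) - 2 + (z : ℂ)⁻¹ := by
  unfold value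
  rw [map_add, map_sub, LaurentPolynomial.eval₂_T, LaurentPolynomial.eval₂_T, map_ofNat]
  simp

theorem value_apoly (n : ℕ) (z : ℂˣ) : value (apoly n) z =
    (1 - ((z : ℂ) - 2 + (z : ℂ)⁻¹)) ^ (n + 1) -
      (n : ℂ) * ((z : ℂ) - 2 + (z : ℂ)⁻¹) * (1 - ((z : ℂ) - 2 + (z : ℂ)⁻¹)) ^ (n - 1) := by
  have h := value_x z
  unfold value at h ⊢
  unfold apoly
  rw [map_sub, map_pow, map_mul, map_mul, map_pow, map_sub, map_one, map_natCast, h]

theorem isAlexander (n : ℕ) {Λ : OWord → LaurentPolynomial ℤ} (hΛ : IsConway Λ) :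
    IsAlexander Λ (starKnot n) (apoly n) := by
  refine ⟨cpoly n, value_eq hΛ n, fun s => ?_⟩
  rw [value_apoly]
  have hs : (s : ℂ) ≠ 0 := s.ne_zero
  have e : ((s ^ 2 : ℂˣ) : ℂ) - 2 + ((s ^ 2 : ℂˣ) : ℂ)⁻¹ = ((s : ℂ) - (s : ℂ)⁻¹) ^ 2 := by
    push_cast
    field_simp
    ring
  rw [e]
  unfold cpoly
  simp only [Polynomial.eval₂_sub, Polynomial.eval₂_mul, Polynomial.eval₂_pow,
    Polynomial.eval₂_one, Polynomial.eval₂_X, Polynomial.eval₂_natCast]

theorem crossings_eq (n : ℕ) : crossings (starKnot n) = 4 * n + 4 := by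
  have h : ∀ n, crossings (arms n) = 4 * n := by
    intro n
    induction n with
    | zero => rfl
    | succ n ih =>
      rw [arms_succ]
      unfold crossings at ih ⊢
      rw [List.countP_append, ih]
      simp [arm2]
      ring
  have h2 := h n
  unfold crossings at h2 ⊢
  unfold starKnot
  rw [List.countP_append, List.countP_append, List.countP_append, List.countP_append, h2]
  simp [arm1]

/-- the two factors -/
theorem value_factor (n : ℕ) (hn : 1 ≤ n) (z : ℂˣ) : value (apoly n) z =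
    (1 - ((z : ℂ) - 2 + (z : ℂ)⁻¹)) ^ (n - 1) *
      (((z : ℂ) - 2 + (z : ℂ)⁻¹) ^ 2 - ((n : ℂ) + 2) * ((z : ℂ) - 2 + (z : ℂ)⁻¹) + 1) := by
  rw [value_apoly]
  obtain ⟨k, rfl⟩ : ∃ k, n = k + 1 := ⟨n - 1, by omega⟩
  rw [show k + 1 - 1 = k by omega, pow_succ, pow_succ]
  push_cast
  ring

/-- a complex number whose square is a positive real number is real -/
theorem real_of_sq {w : ℂ} {r : ℝ} (hr : 0 < r) (h : w ^ 2 = (r : ℂ)) :
    w = (Real.sqrt r : ℂ) ∨ w = -(Real.sqrt r : ℂ) := by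
  have h2 : w ^ 2 = (Real.sqrt r : ℂ) ^ 2 := by
    rw [h, ← Complex.ofReal_pow, Real.sq_sqrt hr.le]
  exact sq_eq_sq_iff_eq_or_eq_neg.1 h2

theorem quad_real {w : ℂ} {c : ℝ} (hc : 2 < c) (h : w ^ 2 - (c : ℂ) * w + 1 = 0) :
    ∃ x : ℝ, 0 < x ∧ w = (x : ℂ) := by
  have h1 : (w - (c : ℂ) / 2) ^ 2 = ((c ^ 2 / 4 - 1 : ℝ) : ℂ) := by
    push_cast
    linear_combination h
  have hpos : 0 < c ^ 2 / 4 - 1 := by nlinarith
  have hs : Real.sqrt (c ^ 2 / 4 - 1) < c / 2 := by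
    rw [Real.sqrt_lt' (by linarith)]
    linarith [sq_nonneg c, show (c / 2) ^ 2 = c ^ 2 / 4 by ring]
  rcases real_of_sq hpos h1 with h2 | h2
  · refine ⟨c / 2 + Real.sqrt (c ^ 2 / 4 - 1), ?_, ?_⟩
    · have := Real.sqrt_nonneg (c ^ 2 / 4 - 1)
      linarith
    · push_cast
      rw [← h2]
      ring
  · refine ⟨c / 2 - Real.sqrt (c ^ 2 / 4 - 1), by linarith, ?_⟩
    push_cast
    linear_combination h2

theorem zeros_real (n : ℕ) (hn : 1 ≤ n) (z : ℂˣ) (h : value (apoly n) z = 0) :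
    ∃ x : ℝ, 0 < x ∧ (z : ℂ) = (x : ℂ) := by
  rw [value_factor n hn] at h
  have hz : (z : ℂ) ≠ 0 := z.ne_zero
  have hn' : (1 : ℝ) ≤ (n : ℝ) := by exact_mod_cast hn
  -- the value of `z - 2 + z⁻¹` is a positive real number
  have hx : ∃ x : ℝ, 0 < x ∧ (z : ℂ) - 2 + (z : ℂ)⁻¹ = (x : ℂ) := by
    rcases mul_eq_zero.1 h with h1 | h1
    · have h2 : 1 - ((z : ℂ) - 2 + (z : ℂ)⁻¹) = 0 := by
        by_contra hne
        exact pow_ne_zero _ hne h1
      refine ⟨1, one_pos, ?_⟩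
      rw [Complex.ofReal_one]
      linear_combination -h2
    · refine quad_real (c := (n : ℝ) + 2) (by linarith) ?_
      push_cast
      exact h1
  obtain ⟨x, hx0, hx⟩ := hx
  refine quad_real (c := x + 2) (by linarith) ?_
  have h3 : ((z : ℂ) - 2 + (z : ℂ)⁻¹) * z = (x : ℂ) * z := by rw [hx]
  have h4 : (z : ℂ)⁻¹ * z = 1 := inv_mul_cancel₀ hz
  push_cast
  linear_combination h3 - h4

theorem exists_large (n : ℕ) (hn : 1 ≤ n) :
    ∃ (x : ℝ) (z : ℂˣ), (n : ℝ) + 2 < x ∧ x < n + 4 ∧ (z : ℂ) = (x : ℂ) ∧ value (apoly n) z = 0 := by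
  have hn' : (1 : ℝ) ≤ (n : ℝ) := by exact_mod_cast hn
  obtain ⟨y, hy⟩ : ∃ y : ℝ, y = (((n : ℝ) + 2) + Real.sqrt (((n : ℝ) + 2) ^ 2 - 4)) / 2 := ⟨_, rfl⟩
  have hs1 : Real.sqrt (((n : ℝ) + 2) ^ 2 - 4) ^ 2 = ((n : ℝ) + 2) ^ 2 - 4 :=
    Real.sq_sqrt (by nlinarith)
  have hs2 : (n : ℝ) < Real.sqrt (((n : ℝ) + 2) ^ 2 - 4) := Real.lt_sqrt_of_sq_lt (by nlinarith)
  have hs3 : Real.sqrt (((n : ℝ) + 2) ^ 2 - 4) < (n : ℝ) + 2 := by
    rw [Real.sqrt_lt' (by linarith)]
    linarith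
  have hy1 : (n : ℝ) + 1 < y := by rw [hy]; linarith
  have hy2 : y < (n : ℝ) + 2 := by rw [hy]; linarith
  have hy3 : y ^ 2 - ((n : ℝ) + 2) * y + 1 = 0 := by
    rw [hy]
    nlinarith [hs1]
  obtain ⟨x, hx⟩ : ∃ x : ℝ, x = ((y + 2) + Real.sqrt ((y + 2) ^ 2 - 4)) / 2 := ⟨_, rfl⟩
  have ht1 : Real.sqrt ((y + 2) ^ 2 - 4) ^ 2 = (y + 2) ^ 2 - 4 := Real.sq_sqrt (by nlinarith)
  have ht2 : y < Real.sqrt ((y + 2) ^ 2 - 4) := Real.lt_sqrt_of_sq_lt (by nlinarith)
  have ht3 : Real.sqrt ((y + 2) ^ 2 - 4) < y + 2 := by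
    rw [Real.sqrt_lt' (by linarith)]
    linarith
  have hx1 : y + 1 < x := by rw [hx]; linarith
  have hx2 : x < y + 2 := by rw [hx]; linarith
  have hx3 : x ^ 2 - (y + 2) * x + 1 = 0 := by
    rw [hx]
    nlinarith [ht1]
  have hx0 : x ≠ 0 := by linarith
  have hxc : (x : ℂ) ≠ 0 := by exact_mod_cast hx0
  refine ⟨x, Units.mk0 (x : ℂ) hxc, by linarith, by linarith, rfl, ?_⟩
  rw [value_factor n hn]
  have e : ((Units.mk0 (x : ℂ) hxc : ℂˣ) : ℂ) - 2 + ((Units.mk0 (x : ℂ) hxc : ℂˣ) : ℂ)⁻¹ =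
      (y : ℂ) := by
    rw [Units.val_mk0]
    have h5 : x - 2 + x⁻¹ = y := by
      field_simp
      linarith
    rw [← h5]
    push_cast
    ring
  rw [e]
  have h6 : (y : ℂ) ^ 2 - ((n : ℂ) + 2) * (y : ℂ) + 1 = 0 := by
    exact_mod_cast hy3
  rw [h6, mul_zero]

/-! ### the result -/

/-- The Conway polynomial of oriented link diagrams exists, and if `Λ` is the Conway polynomial then:

(1) for every `n ≥ 1` there is an alternating diagram of a knot, with `4 n + 4` crossings, whose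
Alexander polynomial has only real, positive zeros, one of which lies between `n + 2` and `n + 4`;

(2) there is no real number `C` such that `Re z ≤ C` for all alternating knots and all zeros `z` of
their Alexander polynomials. -/
theorem result :
    (∃ Λ : OWord → LaurentPolynomial ℤ, IsConway Λ) ∧
    ∀ Λ : OWord → LaurentPolynomial ℤ, IsConway Λ →
      (∀ n : ℕ, 1 ≤ n → ∃ (K : OWord) (A : LaurentPolynomial ℤ),
        OClosed K ∧ IsKnot (forget K) ∧ IsAlternating (forget K) ∧ crossings K = 4 * n + 4 ∧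
        IsAlexander Λ K A ∧
        (∀ z : ℂˣ, value A z = 0 → ∃ x : ℝ, 0 < x ∧ (z : ℂ) = (x : ℂ)) ∧
        ∃ (x : ℝ) (z : ℂˣ), (n : ℝ) + 2 < x ∧ x < n + 4 ∧ (z : ℂ) = (x : ℂ) ∧ value A z = 0) ∧
      ¬ ∃ C : ℝ, ∀ (K : OWord) (A : LaurentPolynomial ℤ), OClosed K → IsKnot (forget K) →
        IsAlternating (forget K) → IsAlexander Λ K A → ∀ z : ℂˣ, value A z = 0 → (z : ℂ).re ≤ C := by
  refine ⟨Q174.TBD.exists_conway, fun Λ hΛ => ⟨fun n hn => ?_, ?_⟩⟩
  · exact ⟨starKnot n, apoly n, closed n, isKnot n, alternating n, crossings_eq n,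
      isAlexander n hΛ, zeros_real n hn, exists_large n hn⟩
  · rintro ⟨C, hC⟩
    obtain ⟨n, hn⟩ := exists_nat_gt (max C 1)
    have h1 : 1 ≤ n := by
      have : (1 : ℝ) < (n : ℝ) := lt_of_le_of_lt (le_max_right _ _) hn
      exact_mod_cast this.le
    have h2 : C < (n : ℝ) := lt_of_le_of_lt (le_max_left _ _) hn
    obtain ⟨x, z, hx1, -, hz, h0⟩ := exists_large n h1
    have := hC (starKnot n) (apoly n) (closed n) (isKnot n) (alternating n) (isAlexander n hΛ) z h0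
    rw [hz, Complex.ofReal_re] at this
    linarith

end

end Pool.Agent.Results.MP_644796_gt.UnboundedZeros
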